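import Pool.Agent.PSV.StmtsS
import Pool.Agent.Helper64_MTN.ELZ

/-!
# PSV, module ELQ: elimination of the unknown rational structure in windows at algebraic points,
all bounds are powers of the constants of the family and of the length of the window
-/

set_option autoImplicit false

namespace Pool.Agent.PSV.H29

open Matrix Polynomial Pool.Agent.MT100 Pool.Agent.MT100G Pool.Agent.MT100A Pool.Agent.MT100D
  Pool.Agent.Helper78_MT Pool.Agent.MTL Pool.Agent.MTN Pool.Agent.MTN.H53 Pool.Agent.MT100G.H29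
  Pool.Agent.MT100D.H64 Pool.Agent.MTN.H64 Pool.Agent.PSV

/-- ELQ -/
theorem elq (hnmq : NmqStmt) (htpq : TpqStmt) : ElqStmt := by
  classical
  intro n k
  obtain ⟨a0, ha0⟩ := hnmq n
  refine ⟨a0 + 1 + 2 * n * k, ?_⟩
  intro m a
  obtain ⟨a1, ha1⟩ := ha0 (n ^ (2 * k) + 1) k m (a + 1)
  obtain ⟨aT, haT⟩ := htpq m a
  refine ⟨(a0 + 2) * aT + (a0 + 1) * a1 + (a0 + 1) + 1, ?_⟩
  intro d _ _ F B hsiz A M0 hM0 P _ K w hw hRw
  have h2 : 2 ≤ B := Siz.two hsiz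
  have hcd : Fintype.card d ≤ n := Siz.card hsiz
  obtain ⟨Z, hZ⟩ : ∃ Z, Z = B * (K + 1) := ⟨_, rfl⟩
  rw [← hZ] at hRw
  have hBZ : B ≤ Z := by
    rw [hZ]
    exact Nat.le_mul_of_pos_right _ (Nat.succ_pos K)
  have h2Z : 2 ≤ Z := h2.trans hBZ
  obtain ⟨D0, hD0⟩ : ∃ D0, D0 = B ^ a0 + 1 := ⟨_, rfl⟩
  have hD0pos : 0 < D0 := by omega
  have hBa : 1 ≤ B ^ a0 := Nat.one_le_pow _ _ (by omega)
  have hD0B : D0 ≤ B ^ (a0 + 1) := by
    rw [hD0, pow_succ]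
    nlinarith
  obtain ⟨D, hD⟩ : ∃ D, D = (Fintype.card d ^ k) ^ 2 := ⟨_, rfl⟩
  have hcard : Fintype.card (Fin k → d) ^ 2 = D := by
    rw [hD, Fintype.card_fun, Fintype.card_fin]
  have hDn : D ≤ n ^ (2 * k) := by
    rw [hD, ← pow_mul, mul_comm k 2]
    exact Nat.pow_le_pow_left hcd _
  have hDB : D ≤ B ^ (2 * n * k) := by
    refine hDn.trans ?_
    calc n ^ (2 * k) ≤ (2 ^ n) ^ (2 * k) := Nat.pow_le_pow_left Nat.lt_two_pow_self.le _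
      _ = 2 ^ (2 * n * k) := by rw [← pow_mul]; congr 1; ring
      _ ≤ B ^ (2 * n * k) := Nat.pow_le_pow_left h2 _
  have hDD : D0 * D ≤ B ^ (a0 + 1 + 2 * n * k) := by
    rw [pow_add]
    exact Nat.mul_le_mul hD0B hDB
  have hKD : K + D0 ≤ Z ^ (a0 + 1) := by
    have h3 : 1 ≤ B ^ (a0 + 1) := Nat.one_le_pow _ _ (by omega)
    calc K + D0 ≤ K * B ^ (a0 + 1) + B ^ (a0 + 1) :=
          Nat.add_le_add (Nat.le_mul_of_pos_right _ (by omega)) hD0B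
      _ = B ^ (a0 + 1) * (K + 1) := by ring
      _ ≤ B ^ (a0 + 1) * (K + 1) ^ (a0 + 1) :=
          Nat.mul_le_mul_left _ (Nat.le_self_pow (Nat.succ_ne_zero _) _)
      _ = Z ^ (a0 + 1) := by rw [hZ, mul_pow]
  have h1Z : (1 : ℝ) ≤ Z := by
    have : ((1 : ℕ) : ℝ) ≤ Z := Nat.cast_le.2 (by omega)
    simpa using this
  have h2Z' : (2 : ℝ) ≤ Z := by exact_mod_cast h2Z
  -- the bounds for `w`
  have hRw1 : ((D0 + 2 : ℕ) : ℝ) ^ aT ≤ ‖w‖ := by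
    have h3 : D0 + 2 ≤ Z ^ (a0 + 2) := by
      calc D0 + 2 ≤ B ^ a0 * 4 := by omega
        _ ≤ B ^ a0 * B ^ 2 := Nat.mul_le_mul_left _ (by nlinarith)
        _ = B ^ (a0 + 2) := by rw [pow_add]
        _ ≤ Z ^ (a0 + 2) := Nat.pow_le_pow_left hBZ _
    calc ((D0 + 2 : ℕ) : ℝ) ^ aT ≤ ((Z ^ (a0 + 2) : ℕ) : ℝ) ^ aT :=
          pow_le_pow_left₀ (Nat.cast_nonneg _) (Nat.cast_le.2 h3) _
      _ = (Z : ℝ) ^ ((a0 + 2) * aT) := by push_cast; rw [← pow_mul]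
      _ ≤ (Z : ℝ) ^ ((a0 + 2) * aT + (a0 + 1) * a1 + (a0 + 1) + 1) :=
          pow_le_pow_right₀ h1Z (by rw [add_assoc, add_assoc]; exact Nat.le_add_right _ _)
      _ ≤ ‖w‖ := hRw
  have hRw2 : (Z : ℝ) ^ ((a0 + 1) * a1) + (D0 : ℝ) ≤ ‖w‖ := by
    have h3 : (D0 : ℝ) ≤ (Z : ℝ) ^ (a0 + 1) := by
      have : (D0 : ℝ) ≤ ((Z ^ (a0 + 1) : ℕ) : ℝ) := Nat.cast_le.2 (by omega)
      simpa using this
    have h4 : (1 : ℝ) ≤ (Z : ℝ) ^ ((a0 + 1) * a1) := one_le_pow₀ h1Z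
    have h5 : (1 : ℝ) ≤ (Z : ℝ) ^ (a0 + 1) := one_le_pow₀ h1Z
    have h6 : (Z : ℝ) ^ ((a0 + 1) * a1) ≤ (Z : ℝ) ^ ((a0 + 1) * a1) * (Z : ℝ) ^ (a0 + 1) :=
      le_mul_of_one_le_right (by positivity) h5
    have h7 : (Z : ℝ) ^ (a0 + 1) ≤ (Z : ℝ) ^ ((a0 + 1) * a1) * (Z : ℝ) ^ (a0 + 1) :=
      le_mul_of_one_le_left (by positivity) h4
    calc (Z : ℝ) ^ ((a0 + 1) * a1) + (D0 : ℝ)
        ≤ (Z : ℝ) ^ ((a0 + 1) * a1) * (Z : ℝ) ^ (a0 + 1) * 2 := by linarith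
      _ ≤ (Z : ℝ) ^ ((a0 + 1) * a1) * (Z : ℝ) ^ (a0 + 1) * Z :=
          mul_le_mul_of_nonneg_left h2Z' (by positivity)
      _ = (Z : ℝ) ^ ((a0 + 1) * a1 + (a0 + 1) + 1) := by
          rw [pow_succ _ ((a0 + 1) * a1 + (a0 + 1)), pow_add _ ((a0 + 1) * a1)]
      _ ≤ (Z : ℝ) ^ ((a0 + 2) * aT + (a0 + 1) * a1 + (a0 + 1) + 1) :=
          pow_le_pow_right₀ h1Z (by
            rw [add_assoc ((a0 + 2) * aT), add_assoc ((a0 + 2) * aT)]
            exact Nat.le_add_left _ _)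
      _ ≤ ‖w‖ := hRw
  obtain ⟨v, hv⟩ : ∃ v : ℂ, v = w + D0 := ⟨_, rfl⟩
  have hvP : v ∈ Pts m (a + 1) := by
    have h1 := haT D0 w hw hRw1 (D0 : ℤ) (by simp)
    rw [Int.cast_natCast] at h1
    rw [hv]
    exact h1
  have hvn : ((Z ^ (a0 + 1) : ℕ) : ℝ) ^ a1 ≤ ‖v‖ := by
    have h1 : ‖w‖ ≤ ‖v‖ + D0 := by
      have h2 : w = v - (D0 : ℂ) := by rw [hv]; ring
      calc ‖w‖ = ‖v - (D0 : ℂ)‖ := by rw [← h2]
        _ ≤ ‖v‖ + ‖(D0 : ℂ)‖ := norm_sub_le _ _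
        _ = ‖v‖ + D0 := by rw [Complex.norm_natCast]
    push_cast
    rw [← pow_mul]
    linarith
  by_contra hcon0
  have hcon : D0 * D < Nat.card {κ : ℕ // κ < K ∧ Exz F M0 A P (w - κ)} := by omega
  obtain ⟨S, hS⟩ : ∃ S : Set ℕ, S = {κ : ℕ | κ < K ∧ Exz F M0 A P (w - κ)} := ⟨_, rfl⟩
  have hfin : S.Finite := by
    rw [hS]
    exact (Set.finite_lt_nat K).subset fun κ hκ => hκ.1
  have hScard : D0 * D < hfin.toFinset.card := by
    rw [← Set.ncard_eq_toFinset_card _ hfin, hS]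
    exact hcon
  -- a class modulo `D0` with more than `D` elements
  obtain ⟨r, -, hr⟩ := Finset.exists_lt_card_fiber_of_mul_lt_card_of_maps_to
    (s := hfin.toFinset) (t := Finset.range D0) (f := fun m => m % D0) (n := D)
    (fun m _ => Finset.mem_range.2 (Nat.mod_lt _ hD0pos)) (by
      rw [Finset.card_range]
      exact hScard)
  obtain ⟨T, hTsub, hTcard⟩ := Finset.exists_subset_card_eq (Nat.succ_le_of_lt hr)
  have e : T ≃ Fin (D + 1) := T.equivFinOfCardEq hTcard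
  have hmem' : ∀ i, ((e.symm i : T) : ℕ) ∈
      Finset.filter (fun m => m % D0 = r) hfin.toFinset := fun i => hTsub (e.symm i).2
  have hmem : ∀ i, ((e.symm i : T) : ℕ) < K ∧ Exz F M0 A P (w - ((e.symm i : T) : ℕ)) := by
    intro i
    have h1 := hfin.mem_toFinset.1 (Finset.mem_filter.1 (hmem' i)).1
    rw [hS] at h1
    exact h1
  have hmod : ∀ i, ((e.symm i : T) : ℕ) % D0 = r := fun i => (Finset.mem_filter.1 (hmem' i)).2
  obtain ⟨κ, hκval⟩ : ∃ κ : Fin (D + 1) → Fin (K + D0), ∀ i,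
      (κ i : ℕ) = ((e.symm i : T) : ℕ) + D0 :=
    ⟨fun i => ⟨((e.symm i : T) : ℕ) + D0, by
      have h1 := (hmem i).1
      omega⟩, fun i => rfl⟩
  have hsep : Sep D0 (fun i => (κ i : ℕ)) := by
    refine ⟨fun i => ?_, fun i j hij => ?_⟩
    · show D0 ≤ (κ i : ℕ)
      rw [hκval]
      omega
    · have h1 : ((e.symm i : T) : ℕ) ≠ ((e.symm j : T) : ℕ) := fun h =>
        hij (e.symm.injective (Subtype.ext h))
      show D0 ≤ (κ i : ℕ) - (κ j : ℕ) ∨ D0 ≤ (κ j : ℕ) - (κ i : ℕ)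
      rw [hκval, hκval]
      rcases dist_of_mod h1 ((hmod i).trans (hmod j).symm) with h4 | h4
      · left; omega
      · right; omega
  have hvw : ∀ i, v - (κ i : ℕ) = w - ((e.symm i : T) : ℕ) := by
    intro i
    rw [hκval, hv, Nat.cast_add]
    ring
  choose t ht ht2 using fun i => (hmem i).2
  obtain ⟨E, hRE, hER⟩ := r_inv F v
  have hY' : ∀ i, F.Y (w - ((e.symm i : T) : ℕ)) = F.Y (v - (κ i : ℕ)) * F.R v * E := by
    intro i
    rw [hvw i, Matrix.mul_assoc, hRE, Matrix.mul_one]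
  obtain ⟨i, hi⟩ := greedy_group (k := ℚ) (K := ℂ) (ι := Fin k → d) (α := Fin k → d)
    (G := Matrix d d ℂ) (J := D + 1) (by rw [hcard]; exact Nat.lt_succ_self D) t A
    (fun i a γ => ∏ j, (F.Y (v - (κ i : ℕ)) * F.R v) (a j) (γ j)) M0 1 hM0.grp.one
    (fun i g a γ => ∏ j, (F.Y (v - (κ i : ℕ)) * g * F.R v) (a j) (γ j))
    (fun i a => by
      funext γ
      rw [Matrix.mul_one])
    (fun β γ => ∏ j, (E * Pᵀ) (γ j) (β j))
    (by
      intro n' hn' b c hc g hg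
      have hsep' : Sep D0 (fun i => ((κ (Fin.castLE hn' i) : Fin (K + D0)) : ℕ)) :=
        ⟨fun i => hsep.1 _, fun i j hij => hsep.2 _ _ fun h =>
          hij (Fin.castLE_injective hn' h)⟩
      have hB1 : B ≤ Z ^ (a0 + 1) := hBZ.trans (Nat.le_self_pow (Nat.succ_ne_zero _) _)
      have hle : ∀ i, ((κ (Fin.castLE hn' i) : Fin (K + D0)) : ℕ) ≤ Z ^ (a0 + 1) := fun i =>
        (κ (Fin.castLE hn' i)).2.le.trans hKD
      have hcn : Fintype.card (Fin n') ≤ n ^ (2 * k) + 1 := by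
        rw [Fintype.card_fin]
        omega
      exact num_rowsZ (fun i => ((κ (Fin.castLE hn' i) : Fin (K + D0)) : ℕ)) M0 v
        (ha1 d F B (Z ^ (a0 + 1)) hsiz hB1 (Fin n')
          (fun i => ((κ (Fin.castLE hn' i) : Fin (K + D0)) : ℕ)) hcn
          (sep_mono (by omega) hsep') hle M0 hM0 v hvP hvn) b c hc g hg)
    (by
      intro i a ha
      have h1 := ht i a ha
      unfold Family.per at h1
      rw [hY' i] at h1
      rw [sum_prod (t i) P (F.Y (v - (κ i : ℕ)) * F.R v) E a] at h1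
      exact h1)
  obtain ⟨g, hg, a, ha, hne⟩ := ht2 i
  apply hne
  have h1 := hi g hg a ha
  rw [← sum_prod (t i) P (F.Y (v - (κ i : ℕ)) * g * F.R v) E a] at h1
  have h2 : F.Y (v - (κ i : ℕ)) * g * F.R v * E = F.Y (w - ((e.symm i : T) : ℕ)) * g := by
    rw [← hvw i, Matrix.mul_assoc, hRE, Matrix.mul_one]
  rw [h2] at h1
  exact h1

end Pool.Agent.PSV.H29
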