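import Pool.Agent.PSV.StmtsS
import Pool.Agent.Helper76_MTN.NMZ

/-! Row NMQ of squad PSV: numerical relations at `1/w`, `w` algebraic, persist under the core of the
monodromy group; all bounds are powers of the constants of the family. -/

set_option autoImplicit false

namespace Pool.Agent.PSV.H29

open Matrix Polynomial Pool.Agent.MT100 Pool.Agent.MT100G Pool.Agent.MT100A Pool.Agent.MT100D
  Pool.Agent.Helper78_MT Pool.Agent.MTL Pool.Agent.MTN Pool.Agent.MTN.H53 Pool.Agent.MTN.H76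
  Pool.Agent.PSV
open Pool.Agent.MT100G.H43 (AC ac_mul ac_int gtype_near)

/-- NMQ -/
theorem nmq (hgmq : GmqStmt) (hvgq : VgqStmt) (hfsq : FsqStmt) (hamq : AmqStmt)
    (htre : TreStmt) (hsye : SyeStmt) (hszm : SzmStmt) : NmqStmt := by
  classical
  intro n
  obtain ⟨a0, aF, hF⟩ := hfsq n
  refine ⟨a0, ?_⟩
  intro e k m A
  obtain ⟨η, hη, hlb⟩ := hgmq m A
  obtain ⟨E, hE⟩ := hamq (max n e) η k hη
  obtain ⟨N, hN⟩ : ∃ N, N = max (n + 1) (e * E) := ⟨_, rfl⟩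
  obtain ⟨n', aS, hS⟩ := hsye N
  obtain ⟨aT, hT⟩ := htre n
  obtain ⟨aG, hG⟩ := hlb n'
  obtain ⟨aV, hV⟩ := hvgq n
  refine ⟨aF + aV + (aT + 1) * aS * aG, ?_⟩
  intro d _ _ F B B1 hsiz hB ι _ _ κ hcard hκ hκB M0 hc w hw hR c hcK hrel g hg
  have hB1 : FSiz n B1 F := hszm.1 d n n B B1 _ _ _ _ _ _ le_rfl hB hsiz
  have h2 : 2 ≤ B1 := Siz.two hB1
  have h1B : (1 : ℝ) ≤ B1 := by
    have : ((1 : ℕ) : ℝ) ≤ B1 := Nat.cast_le.2 (by omega)
    simpa using this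
  have hwF : (B1 : ℝ) ^ aF ≤ ‖w‖ := (pow_le_pow_right₀ h1B (by omega)).trans hR
  have hwV : (B1 : ℝ) ^ aV ≤ ‖w‖ := (pow_le_pow_right₀ h1B (by omega)).trans hR
  have hwG : (((B1 ^ (aT + 1)) ^ aS : ℕ) : ℝ) ^ aG ≤ ‖w‖ := by
    push_cast
    rw [← pow_mul, ← pow_mul]
    refine (pow_le_pow_right₀ h1B ?_).trans hR
    rw [mul_assoc]
    exact Nat.le_add_left _ _
  have hT' : ∀ i, Siz N (B1 ^ (aT + 1)) (TrD F.H F.N F.δ (κ i)) (TrK F.K F.N F.δ (κ i)) F.N F.δ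
      ((1 - C ((κ i : ℕ) : ℤ) * X) * hmg (κ i) n F.q) (F.B.map (hmg (κ i) n)) := by
    intro i
    refine hszm.1 d (n + 1) N (B1 ^ aT) (B1 ^ (aT + 1)) _ _ _ _ _ _ (by omega)
      (Nat.pow_le_pow_right (by omega) (Nat.le_succ _)) ?_
    exact hT d F.H F.K F.N F.δ F.q F.B B1 (κ i) hB1 (hκB i)
  have hG' : ∀ e' ≤ E, Lb η (fun x : (ι × Fin e' → d) × (ι × Fin e' → d) =>
      kr (fun s : ι × Fin e' => F.T (κ s.1)) x.1 x.2) w := by
    intro e' he'
    have h3 := hS (ι × Fin e') d (fun s => TrD F.H F.N F.δ (κ s.1))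
      (fun s => TrK F.K F.N F.δ (κ s.1)) (fun _ => F.N) (fun _ => F.δ)
      (fun s => (1 - C ((κ s.1 : ℕ) : ℤ) * X) * hmg (κ s.1) n F.q)
      (fun s => F.B.map (hmg (κ s.1) n)) (B1 ^ (aT + 1)) (by
        rw [Fintype.card_prod, Fintype.card_fin]
        have := Nat.mul_le_mul hcard he'
        omega) (by
        calc 2 ≤ B1 := h2
          _ = B1 ^ 1 := (pow_one _).symm
          _ ≤ B1 ^ (aT + 1) := Nat.pow_le_pow_right (by omega) (by omega)) fun s => hT' s.1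
    exact hG _ _ _ _ _ _ _ _ h3 w hw hwG
  have hw4 : ∀ i a b, AC (F.T (κ i) a b) w⁻¹ := fun i a b =>
    (hV d F B1 (κ i) hB1 (hκB i) w hwV).2 a b
  -- the field, the set, the point
  obtain ⟨K, hK⟩ : ∃ K : IntermediateField ℚ ℂ, K = IntermediateField.adjoin ℚ {w} := ⟨_, rfl⟩
  obtain ⟨G, hGdef⟩ : ∃ G : Set (ι → Matrix d d ℂ), G = {X | ∃ g : ι → Matrix d d ℂ,
      (∀ i, g i ∈ M0) ∧ X = fun i => F.Y (w - κ i) * g i * F.R w} := ⟨_, rfl⟩
  obtain ⟨A0, hA0⟩ : ∃ A0 : ι → Matrix d d ℂ, A0 = fun i => F.Y (w - κ i) * F.R w := ⟨_, rfl⟩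
  have hA0G : A0 ∈ G := by
    rw [hGdef, hA0]
    exact ⟨fun _ => 1, fun _ => hc.grp.one, funext fun i => by rw [Matrix.mul_one]⟩
  have hdom : ∀ p q : MvPolynomial (ι × d × d) ℂ, (∃ A ∈ G, pv A p ≠ 0) →
      (∃ A ∈ G, pv A q ≠ 0) → ∃ A ∈ G, pv A (p * q) ≠ 0 := by
    rintro p q ⟨X, hX, hXp⟩ ⟨Y, hY, hYq⟩
    rw [hGdef] at hX hY
    obtain ⟨gX, hgX, rfl⟩ := hX
    obtain ⟨gY, hgY, rfl⟩ := hY
    rw [← tev_sb (fun i => F.Y (w - κ i)) (F.R w) gX] at hXp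
    rw [← tev_sb (fun i => F.Y (w - κ i)) (F.R w) gY] at hYq
    obtain ⟨g', hg', h1, h2⟩ := hc.domain _ _ gX gY hgX hgY hXp hYq
    refine ⟨fun i => F.Y (w - κ i) * g' i * F.R w, ?_, ?_⟩
    · rw [hGdef]
      exact ⟨g', hg', rfl⟩
    · rw [← tev_sb (fun i => F.Y (w - κ i)) (F.R w) g', map_mul, map_mul]
      exact mul_ne_zero h1 h2
  have hA0v : ∀ i, A0 i = tvC F (κ i) w := by
    intro i
    rw [hA0]
    exact (hV d F B1 (κ i) hB1 (hκB i) w hwV).1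
  have hkr : ∀ (e : ℕ) (β α : ι × Fin e → d),
      evC (kr (fun s : ι × Fin e => F.T (κ s.1)) β α) w⁻¹ = ∏ s, A0 s.1 (β s) (α s) := by
    intro e β α
    have h1 := (ac_prod Finset.univ (fun s : ι × Fin e => F.T (κ s.1) (β s) (α s)) (x := w⁻¹)
      fun s _ => hw4 s.1 _ _).2
    refine h1.trans (Finset.prod_congr rfl fun s _ => ?_)
    rw [hA0v]
    rfl
  have hMZ : ∀ g ∈ M0, g ∈ F.Zc := fun g hg =>
    ⟨hc.grp.det g hg, fun p hp => hp g (hc.sub hg)⟩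
  -- the hypothesis of the amplification
  have hyp : ∀ e ≤ E, ∀ N Z : Submodule K ((ι × Fin e → d) × (ι × Fin e → d) → K),
      (∀ c, c ∈ N ↔ tf (fun β α => (c (β, α) : ℂ)) A0 = 0) →
      (∀ c, c ∈ Z ↔ ∀ A ∈ G, tf (fun β α => (c (β, α) : ℂ)) A = 0) →
      η * ((Fintype.card ((ι × Fin e → d) × (ι × Fin e → d)) : ℝ) - Module.finrank K Z) ≤
        (Fintype.card ((ι × Fin e → d) × (ι × Fin e → d)) : ℝ) - Module.finrank K N := by
    intro e he
    have h0 := hG' e he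
    unfold Lb at h0
    rw [← hK] at h0
    intro N Z hN hZ
    refine h0 N Z ?_ ?_
    · intro a ha
      have h1 := (hN a).1 ha
      unfold tf at h1
      rw [Fintype.sum_prod_type, ← h1]
      refine Finset.sum_congr rfl fun β _ => Finset.sum_congr rfl fun α _ => ?_
      rw [hkr]
    · intro p hp a ha
      rw [hZ]
      intro X hX
      rw [hGdef] at hX
      obtain ⟨g', hg', rfl⟩ := hX
      have h1 := hF d F B B1 hsiz hB ι κ hκ hκB e (fun β α => p (β, α)) (by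
        rw [← hp, Fintype.sum_prod_type]
        rfl) w hwF g' (fun i => hMZ _ (hg' i))
      rw [← h1]
      unfold tf
      refine Finset.sum_congr rfl fun β _ => Finset.sum_congr rfl fun α _ => ?_
      exact congrArg (fun z => z * ∏ s, (F.Y (w - κ s.1) * g' s.1 * F.R w : Matrix d d ℂ)
        (β s) (α s)) (ha (β, α))
  have hcK' : ∀ β α, c β α ∈ K := by
    intro β α
    rw [hK]
    exact hcK β α
  have hcd : Fintype.card d ≤ max n e := (Siz.card hB1).trans (le_max_left _ _)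
  have hcι : Fintype.card ι ≤ max n e := hcard.trans (le_max_right _ _)
  have h1 := hE ι d hcι hcd K G A0 hA0G hdom hyp (fun β α => ⟨c β α, hcK' β α⟩) (by
    rw [hA0]
    exact hrel) (fun i => F.Y (w - κ i) * g i * F.R w) (by
      rw [hGdef]
      exact ⟨g, hg, rfl⟩)
  exact h1

end Pool.Agent.PSV.H29
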